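import Pool.Agent.Q297.CsH

/-!
Classification of the random vectors whose coordinate hull is convex-stable.
-/

open MeasureTheory ProbabilityTheory Set Filter Topology
open scoped ENNReal NNReal Pointwise

namespace Pool.Agent.Results.MP_57d4a6_pr.Classification

/-- the closed convex hull `X` of the coordinate half-lines `{x e_i : x ≤ ξ_i}` for `ξ = x` -/
def CX {d : ℕ} (x : Fin d → ℝ) : Set (Fin d → ℝ) :=
  closure (convexHull ℝ {y | ∃ i, ∃ t ≤ x i, y = Pi.single i t})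

/-- convex-stable random closed convex sets; equality in distribution is equality of the hitting
probabilities of all compact sets, and the i.i.d. copies live on the product space -/
def ConvexStable {Ω : Type*} [MeasurableSpace Ω] {d : ℕ} (P : Measure Ω)
    (X : Ω → Set (Fin d → ℝ)) : Prop :=
  ∀ n : ℕ, 1 ≤ n → ∃ a : ℝ, 0 < a ∧ ∃ K : Set (Fin d → ℝ), IsCompact K ∧ Convex ℝ K ∧ K.Nonempty ∧
    ∀ C : Set (Fin d → ℝ), IsCompact C →
      P {ω | ((a • X ω) ∩ C).Nonempty} =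
        Measure.pi (fun _ : Fin n => P)
          {ω | ((closure (convexHull ℝ (⋃ j, X (ω j))) + K) ∩ C).Nonempty}

/-- (D) `X` is a.s. constant: `ξ` is a constant vector with negative coordinates, or some
coordinate is a.s. nonnegative and the positive part `ξ⁺` is constant -/
def TypeD {d : ℕ} (μ : Measure (Fin d → ℝ)) : Prop :=
  ∃ c : Fin d → ℝ, ((∀ i, c i < 0) ∧ ∀ᵐ x ∂μ, x = c) ∨
    ((∀ i, 0 ≤ c i) ∧ ∀ᵐ x ∂μ, (∃ i, 0 ≤ x i) ∧ ∀ i, max (x i) 0 = c i)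

/-- (P) all coordinates are a.s. negative and `ξ` is max-stable: `F^n (y) = F (n^{1/α} y)` -/
def TypeP {d : ℕ} (μ : Measure (Fin d → ℝ)) : Prop :=
  (∀ᵐ x ∂μ, ∀ i, x i < 0) ∧ ∃ α : ℝ, 0 < α ∧ ∀ n : ℕ, 1 ≤ n → ∀ y : Fin d → ℝ,
    μ {x | ∀ i, x i ≤ y i} ^ n = μ {x | ∀ i, x i ≤ (n : ℝ) ^ (1 / α) * y i}

/-- (F) some coordinate is a.s. nonnegative and the positive part `ξ⁺` is max-stable:
`F^n (y) = F (n^{-1/α} y)` for `y ≥ 0` -/
def TypeF {d : ℕ} (μ : Measure (Fin d → ℝ)) : Prop :=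
  (∀ᵐ x ∂μ, ∃ i, 0 ≤ x i) ∧ ∃ α : ℝ, 0 < α ∧ ∀ n : ℕ, 1 ≤ n → ∀ y : Fin d → ℝ,
    (∀ i, 0 ≤ y i) →
      μ {x | ∀ i, x i ≤ y i} ^ n = μ {x | ∀ i, x i ≤ (n : ℝ) ^ (-(1 / α)) * y i}

/-- (H) the positive part is `ξ⁺ = (1 + θ) c` with a fixed vector `c ≥ 0`, `c ≠ 0`, and a Fréchet
variable `θ`, `P(θ ≤ s) = exp (-b s^{-α})` -/
def TypeH {d : ℕ} (μ : Measure (Fin d → ℝ)) : Prop :=
  ∃ c : Fin d → ℝ, (∀ i, 0 ≤ c i) ∧ (∃ i, 0 < c i) ∧ ∃ α b : ℝ, 0 < α ∧ 0 < b ∧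
    (∀ᵐ x ∂μ, ∃ s, 0 < s ∧ ∀ i, max (x i) 0 = (1 + s) * c i) ∧
    ∀ s, 0 < s → μ {x | ∀ i, x i ≤ (1 + s) * c i} = ENNReal.ofReal (Real.exp (-(b * s ^ (-α))))

/-- classical max-stability of a real random variable: the maximum of `n` copies has the law of
`a ξ - b` -/
def MaxStable1 (μ : Measure (Fin 1 → ℝ)) : Prop :=
  ∀ n : ℕ, 1 ≤ n → ∃ a b : ℝ, 0 < a ∧ ∀ t : ℝ, μ {x | x 0 ≤ t} ^ n = μ {x | a * x 0 - b ≤ t}

/-- **Main theorem.**  Let `μ` be the law of `ξ`.  For `d ≥ 2`, `X` is convex-stable if and only if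
`μ` is of type (D), (P), (F) or (H).  For `d = 1`, `X` is convex-stable if and only if `ξ` is
max-stable in the classical sense. -/
theorem result :
    (∀ (d : ℕ), 2 ≤ d → ∀ (μ : Measure (Fin d → ℝ)) [IsProbabilityMeasure μ],
      ConvexStable μ CX ↔ TypeD μ ∨ TypeP μ ∨ TypeF μ ∨ TypeH μ) ∧
    ∀ (μ : Measure (Fin 1 → ℝ)) [IsProbabilityMeasure μ],
      ConvexStable μ CX ↔ MaxStable1 μ := by
  have hCX : ∀ (d : ℕ) (x : Fin d → ℝ), CX x = Q297.Cs.CX x := fun d x =>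
    closedConvexHull_eq_closure_convexHull.symm
  have hcs : ∀ (d : ℕ) (μ : Measure (Fin d → ℝ)),
      ConvexStable μ CX ↔ Q297.Cs.ConvexStable μ Q297.Cs.CX := by
    intro d μ
    unfold ConvexStable Q297.Cs.ConvexStable
    simp_rw [hCX, closedConvexHull_eq_closure_convexHull]
  constructor
  · intro d hd μ hμ
    have : Nontrivial (Fin d) := Fin.nontrivial_iff_two_le.2 hd
    rw [hcs]
    exact Q297.Cs.classification
  · intro μ hμ
    rw [hcs]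
    exact Q297.Cs.dim_one

end Pool.Agent.Results.MP_57d4a6_pr.Classification
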